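import Pool.Agent.H366R2.HN.Defs

set_option autoImplicit false
open Filter

namespace Pool.Agent.H366R2.HN

theorem A1_log_le {c δ : ℝ} (hc : 0 < c) (hδ : 0 < δ) :
    ∀ᶠ M : ℕ in atTop, Real.log M ≤ c * (M : ℝ) ^ δ := by
  have h := (isLittleO_log_rpow_atTop hδ).bound hc
  have h2 := tendsto_natCast_atTop_atTop (R := ℝ) |>.eventually h
  filter_upwards [h2, eventually_ge_atTop 1] with M hM h1
  have h1' : (1 : ℝ) ≤ M := by exact_mod_cast h1
  rw [Real.norm_eq_abs, Real.norm_eq_abs, abs_of_nonneg (Real.log_nonneg h1'),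
    abs_of_nonneg (Real.rpow_nonneg (by linarith) _)] at hM
  exact hM

theorem hA1 : PrimeLower := by
  intro ε hε
  have e1 := A1_log_le (c := 1 / 8) (by norm_num) hε
  have e2 := A1_log_le (c := 1 / 16) (δ := 1) (by norm_num) one_pos
  have e3 : ∀ᶠ M : ℕ in atTop, Real.log ((M + 1 : ℕ) : ℝ) ≤ 1 / 16 * ((M + 1 : ℕ) : ℝ) ^ (1 : ℝ) :=
    (tendsto_add_atTop_nat 1).eventually e2
  filter_upwards [e1, e3, eventually_ge_atTop 3] with M h1 h3 hM
  have hM' : (3 : ℝ) ≤ M := by exact_mod_cast hM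
  have hM0 : (0 : ℝ) < M := by linarith
  have hlog : 0 < Real.log M := Real.log_pos (by linarith)
  have hpi := Chebyshev.pi_ge M
  refine le_trans ?_ hpi
  rw [le_div_iff₀ hlog]
  rw [Real.rpow_one] at h3
  push_cast at h3
  have hl2 := Real.log_two_gt_d9
  have h4 : (M : ℝ) ^ (1 - ε) * Real.log M ≤ (M : ℝ) ^ (1 - ε) * (1 / 8 * (M : ℝ) ^ ε) :=
    mul_le_mul_of_nonneg_left h1 (Real.rpow_nonneg hM0.le _)
  have h5 : (M : ℝ) ^ (1 - ε) * (1 / 8 * (M : ℝ) ^ ε) = 1 / 8 * M := by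
    have : (M : ℝ) ^ (1 - ε) * (M : ℝ) ^ ε = M := by
      rw [← Real.rpow_add hM0]
      simp
    linear_combination (1 / 8) * this
  nlinarith

end Pool.Agent.H366R2.HN
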