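import Pool.Agent.H366R2.HN.Defs

set_option autoImplicit false

namespace Pool.Agent.H366R2.HN

/-- A2: products of `s` distinct primes at most `M` are smooth (helper577) -/
theorem hA2 : SmoothChoose := by
  classical
  intro M N s hN
  have hP : ((Finset.range (M + 1)).filter Nat.Prime).card = Nat.primeCounting M := by
    rw [Nat.primeCounting, Nat.primeCounting', Nat.count_eq_card_filter_range]
  rw [← hP, ← Finset.card_powersetCard]
  refine Finset.card_le_card_of_injOn (fun t => ∏ p ∈ t, p) ?_ ?_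
  · intro t ht
    have ht' := Finset.mem_powersetCard.1 (Finset.mem_coe.1 ht)
    have hpr : ∀ p ∈ t, p.Prime ∧ p ≤ M := by
      intro p hp
      have h1 := Finset.mem_filter.1 (ht'.1 hp)
      have h2 := Finset.mem_range.1 h1.1
      exact ⟨h1.2, by omega⟩
    show ∏ p ∈ t, p ∈ ((SM M N : Finset ℕ) : Set ℕ)
    rw [Finset.mem_coe]
    unfold SM
    rw [Finset.mem_filter, Finset.mem_Icc]
    refine ⟨⟨?_, ?_⟩, ?_⟩
    · exact Nat.one_le_iff_ne_zero.2 (Finset.prod_ne_zero_iff.2 fun p hp => (hpr p hp).1.ne_zero)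
    · refine le_trans ?_ hN
      calc ∏ p ∈ t, p ≤ ∏ _p ∈ t, M := Finset.prod_le_prod' fun p hp => (hpr p hp).2
        _ = M ^ s := by rw [Finset.prod_const, ht'.2]
    · intro p hp hdvd
      obtain ⟨q, hq, hpq⟩ := (Prime.dvd_finsetProd_iff hp.prime _).1 hdvd
      have hpq' : p = q := (Nat.prime_dvd_prime_iff_eq hp (hpr q hq).1).1 hpq
      rw [hpq']
      exact (hpr q hq).2
  · intro t ht t' ht' h
    have h1 := Finset.mem_powersetCard.1 (Finset.mem_coe.1 ht)
    have h2 := Finset.mem_powersetCard.1 (Finset.mem_coe.1 ht')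
    have h3 : Nat.primeFactors (∏ p ∈ t, p) = Nat.primeFactors (∏ p ∈ t', p) := congrArg _ h
    rwa [Nat.primeFactors_prod fun p hp => (Finset.mem_filter.1 (h1.1 hp)).2,
      Nat.primeFactors_prod fun p hp => (Finset.mem_filter.1 (h2.1 hp)).2] at h3

end Pool.Agent.H366R2.HN
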