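import Pool.Agent.H366R2.HN.Defs2

set_option autoImplicit false
open Filter

namespace Pool.Agent.H366R2.HN

/-- A4, in terms of `L = log x` (helper411) -/
theorem A4_core (h1 : PrimeLower) (h2 : SmoothChoose) (A t ε : ℝ) (hA : 1 < A) (ht : 0 < t)
    (hε : 0 < ε) :
    ∀ᶠ L : ℝ in atTop, Real.exp (L * (t * (1 - 1 / A) - ε)) ≤
      ((SM ⌊L ^ A⌋₊ ⌊Real.exp (L * t)⌋₊).card : ℝ) := by
  have hA0 : 0 < A := by linarith
  -- the small parameter
  obtain ⟨η, hη0, hη1, hη2⟩ : ∃ η : ℝ, 0 < η ∧ η ≤ A - 1 ∧ t * η / A ≤ ε / 2 := by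
    refine ⟨min (A - 1) (ε * A / (2 * t)), ?_, min_le_left _ _, ?_⟩
    · exact lt_min (by linarith) (by positivity)
    · have := min_le_right (A - 1) (ε * A / (2 * t))
      rw [div_le_iff₀ hA0]
      calc t * min (A - 1) (ε * A / (2 * t)) ≤ t * (ε * A / (2 * t)) :=
            mul_le_mul_of_nonneg_left this ht.le
        _ = ε / 2 * A := by field_simp
  have hδ : 0 < η / (2 * A) := by positivity
  have hδ1 : η / (2 * A) ≤ 1 := by
    rw [div_le_one (by positivity)]; linarith
  have hfl : Tendsto (fun L : ℝ => ⌊L ^ A⌋₊) atTop atTop :=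
    tendsto_nat_floor_atTop.comp (tendsto_rpow_atTop hA0)
  have e1 := hfl.eventually (h1 (η / (2 * A)) hδ)
  have e2 : ∀ᶠ L : ℝ in atTop, 4 * t ≤ L ^ (η / 2) :=
    (tendsto_rpow_atTop (by positivity : 0 < η / 2)).eventually_ge_atTop _
  have e3 : ∀ᶠ L : ℝ in atTop, Real.log L ≤ (ε / (2 * A)) * L ^ (1 : ℝ) := by
    have h := (isLittleO_log_rpow_atTop one_pos).bound (show 0 < ε / (2 * A) by positivity)
    filter_upwards [h, eventually_ge_atTop 1] with L hL hL1
    rw [Real.norm_eq_abs, Real.norm_eq_abs, abs_of_nonneg (Real.log_nonneg hL1),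
      abs_of_nonneg (Real.rpow_nonneg (by linarith) _)] at hL
    exact hL
  have e4 : ∀ᶠ L : ℝ in atTop, Real.log L ≤ (t / A) * L ^ (1 : ℝ) := by
    have h := (isLittleO_log_rpow_atTop one_pos).bound (show 0 < t / A by positivity)
    filter_upwards [h, eventually_ge_atTop 1] with L hL hL1
    rw [Real.norm_eq_abs, Real.norm_eq_abs, abs_of_nonneg (Real.log_nonneg hL1),
      abs_of_nonneg (Real.rpow_nonneg (by linarith) _)] at hL
    exact hL
  have e5 : ∀ᶠ L : ℝ in atTop, 1 ≤ Real.log L := Real.tendsto_log_atTop.eventually_ge_atTop _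
  filter_upwards [e1, e2, e3, e4, e5, eventually_ge_atTop 2] with L g1 g2 g3 g4 g5 g6
  rw [Real.rpow_one] at g3 g4
  have hL0 : 0 < L := by linarith
  have hL1 : 1 ≤ L := by linarith
  have hlog : 0 < Real.log L := by linarith
  set M := ⌊L ^ A⌋₊ with hM
  set s := ⌊t * L / (A * Real.log L)⌋₊ with hs
  have hs_le : (s : ℝ) ≤ t * L / (A * Real.log L) := Nat.floor_le (by positivity)
  have hs_ge : t * L / (A * Real.log L) - 1 ≤ (s : ℝ) := by
    have := Nat.lt_floor_add_one (t * L / (A * Real.log L))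
    linarith
  have hs1 : 1 ≤ s := by
    apply Nat.le_floor
    rw [le_div_iff₀ (by positivity)]
    push_cast
    rw [one_mul]
    calc A * Real.log L ≤ A * (t / A * L) := mul_le_mul_of_nonneg_left g4 hA0.le
      _ = t * L := by field_simp
  have hs_le2 : (s : ℝ) ≤ t * L := by
    refine hs_le.trans ?_
    rw [div_le_iff₀ (by positivity)]
    have : 1 ≤ A * Real.log L := by nlinarith
    nlinarith [mul_pos ht hL0]
  -- M ^ s ≤ N
  have hLA : L ^ A = Real.exp (Real.log L * A) := Real.rpow_def_of_pos hL0 A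
  have hMle : (M : ℝ) ≤ L ^ A := Nat.floor_le (Real.rpow_nonneg hL0.le _)
  have hMs : M ^ s ≤ ⌊Real.exp (L * t)⌋₊ := by
    apply Nat.le_floor
    push_cast
    calc (M : ℝ) ^ s ≤ (L ^ A) ^ s := pow_le_pow_left₀ (Nat.cast_nonneg _) hMle _
      _ = Real.exp (Real.log L * A * s) := by rw [hLA, ← Real.exp_nat_mul]; ring_nf
      _ ≤ Real.exp (L * t) := by
          apply Real.exp_le_exp.2
          have h3 : Real.log L * A * s ≤ Real.log L * A * (t * L / (A * Real.log L)) :=
            mul_le_mul_of_nonneg_left hs_le (by positivity)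
          refine h3.trans (le_of_eq ?_)
          field_simp
  have hc := h2 M _ s hMs
  have hc' : ((Nat.primeCounting M).choose s : ℝ) ≤ ((SM M ⌊Real.exp (L * t)⌋₊).card : ℝ) := by
    exact_mod_cast hc
  refine le_trans ?_ hc'
  -- lower bound for π(M)
  have hLA2 : 2 ≤ L ^ A := by
    calc (2 : ℝ) ≤ L := g6
      _ = L ^ (1 : ℝ) := (Real.rpow_one L).symm
      _ ≤ L ^ A := Real.rpow_le_rpow_of_exponent_le hL1 hA.le
  have hMge : L ^ A / 2 ≤ (M : ℝ) := by
    have := Nat.lt_floor_add_one (L ^ A)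
    rw [← hM] at this
    linarith
  have hP : L ^ (A - η / 2) / 2 ≤ (Nat.primeCounting M : ℝ) := by
    refine le_trans ?_ g1
    calc L ^ (A - η / 2) / 2 ≤ (L ^ A / 2) ^ (1 - η / (2 * A)) := by
          rw [Real.div_rpow (by positivity) (by norm_num), ← Real.rpow_mul hL0.le]
          have e : A * (1 - η / (2 * A)) = A - η / 2 := by field_simp
          rw [e]
          apply div_le_div_of_nonneg_left (by positivity) (by positivity)
          calc (2 : ℝ) ^ (1 - η / (2 * A)) ≤ 2 ^ (1 : ℝ) :=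
                Real.rpow_le_rpow_of_exponent_le (by norm_num) (by linarith)
            _ = 2 := Real.rpow_one 2
      _ ≤ (M : ℝ) ^ (1 - η / (2 * A)) :=
          Real.rpow_le_rpow (by positivity) hMge (by linarith)
  set P := Nat.primeCounting M with hPdef
  have hb0 : L ^ (A - η) * (2 * t) ≤ (P : ℝ) := by
    refine le_trans ?_ hP
    have e : L ^ (A - η / 2) = L ^ (A - η) * L ^ (η / 2) := by
      rw [← Real.rpow_add hL0]; ring_nf
    rw [e]
    have : 0 < L ^ (A - η) := by positivity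
    nlinarith
  have hb1 : L ≤ L ^ (A - η) := by
    calc L = L ^ (1 : ℝ) := (Real.rpow_one L).symm
      _ ≤ L ^ (A - η) := Real.rpow_le_rpow_of_exponent_le hL1 (by linarith)
  have hb2 : L ^ (A - 1 - η) * s + s ≤ (P : ℝ) := by
    have e : L ^ (A - η) = L ^ (A - 1 - η) * L := by
      rw [← Real.rpow_add_one hL0.ne']; ring_nf
    have h0 : 0 < L ^ (A - 1 - η) := by positivity
    calc L ^ (A - 1 - η) * s + s ≤ L ^ (A - 1 - η) * (t * L) + t * L :=
          add_le_add (mul_le_mul_of_nonneg_left hs_le2 h0.le) hs_le2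
      _ = t * L ^ (A - η) + t * L := by rw [e]; ring
      _ ≤ t * L ^ (A - η) + t * L ^ (A - η) := by
          have := mul_le_mul_of_nonneg_left hb1 ht.le
          linarith
      _ = L ^ (A - η) * (2 * t) := by ring
      _ ≤ P := hb0
  have hsP : s ≤ P := by
    have h0 : 0 < L ^ (A - 1 - η) := by positivity
    have : (s : ℝ) ≤ P := by
      have : 0 ≤ L ^ (A - 1 - η) * s := by positivity
      linarith
    exact_mod_cast this
  have hchoose : (L ^ (A - 1 - η)) ^ s ≤ (P.choose s : ℝ) := by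
    have hp := Nat.pow_le_choose (α := ℝ) s P
    have hcast : ((P + 1 - s : ℕ) : ℝ) = P + 1 - s := by
      rw [Nat.cast_sub (by omega)]; push_cast; ring
    rw [hcast, div_le_iff₀ (by exact_mod_cast s.factorial_pos), mul_comm] at hp
    have hfac : ((s.factorial : ℕ) : ℝ) ≤ (s : ℝ) ^ s := by
      exact_mod_cast Nat.factorial_le_pow s
    have hspos : (0 : ℝ) < s := by exact_mod_cast hs1
    have hss : (0 : ℝ) < (s : ℝ) ^ s := by positivity
    have h3 : (L ^ (A - 1 - η) * s) ^ s ≤ (P + 1 - s : ℝ) ^ s := by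
      apply pow_le_pow_left₀ (by positivity)
      linarith
    have h4 : (L ^ (A - 1 - η)) ^ s * (s : ℝ) ^ s ≤ (s : ℝ) ^ s * (P.choose s : ℝ) := by
      rw [← mul_pow]
      refine h3.trans (hp.trans ?_)
      exact mul_le_mul_of_nonneg_right hfac (Nat.cast_nonneg _)
    rw [mul_comm] at h4
    exact le_of_mul_le_mul_left h4 hss
  refine le_trans ?_ hchoose
  rw [Real.rpow_def_of_pos hL0, ← Real.exp_nat_mul]
  apply Real.exp_le_exp.2
  have hk : 0 ≤ A - 1 - η := by linarith
  have h5 : (A - 1 - η) * (Real.log L * (t * L / (A * Real.log L) - 1)) ≤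
      (A - 1 - η) * (Real.log L * s) :=
    mul_le_mul_of_nonneg_left (mul_le_mul_of_nonneg_left hs_ge hlog.le) hk
  have h6 : Real.log L * (t * L / (A * Real.log L) - 1) = t * L / A - Real.log L := by
    field_simp
  rw [h6] at h5
  have h7 : (A - 1 - η) * Real.log L ≤ ε / 2 * L := by
    calc (A - 1 - η) * Real.log L ≤ A * Real.log L :=
          mul_le_mul_of_nonneg_right (by linarith) hlog.le
      _ ≤ A * (ε / (2 * A) * L) := mul_le_mul_of_nonneg_left g3 hA0.le
      _ = ε / 2 * L := by field_simp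
  have h8 : t * η / A * L ≤ ε / 2 * L := mul_le_mul_of_nonneg_right hη2 hL0.le
  have h9 : (A - 1 - η) * (t * L / A) = L * (t * (1 - 1 / A)) - t * η / A * L := by
    field_simp
  calc L * (t * (1 - 1 / A) - ε) = L * (t * (1 - 1 / A)) - ε / 2 * L - ε / 2 * L := by ring
    _ ≤ L * (t * (1 - 1 / A)) - t * η / A * L - (A - 1 - η) * Real.log L := by linarith
    _ = (A - 1 - η) * (t * L / A - Real.log L) := by rw [← h9]; ring
    _ ≤ (A - 1 - η) * (Real.log L * s) := h5
    _ = s * (Real.log L * (A - 1 - η)) := by ring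

theorem hA4 (h1 : PrimeLower) (h2 : SmoothChoose) : SmoothCountA := by
  intro A t ε hA ht hε
  have h := Real.tendsto_log_atTop.eventually (A4_core h1 h2 A t ε hA ht hε)
  filter_upwards [h, eventually_gt_atTop 0] with x hx hx0
  rw [Real.rpow_def_of_pos hx0, Real.rpow_def_of_pos hx0]
  exact hx

end Pool.Agent.H366R2.HN
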