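import Pool.Agent.H366R2.HN.Defs2

/-!
# The dual large sieve with power residues
-/

set_option autoImplicit false

namespace Pool.Agent.H366R2.HN

theorem B2_sum_range (n : ℕ) [NeZero n] (F : ZMod n → ℤ) :
    ∑ b ∈ Finset.range n, F (b : ZMod n) = ∑ x : ZMod n, F x := by
  refine Finset.sum_bij' (fun b _ => (b : ZMod n)) (fun x _ => x.val) ?_ ?_ ?_ ?_ ?_
  · intro b _
    exact Finset.mem_univ _
  · intro x _
    exact Finset.mem_range.2 (ZMod.val_lt x)
  · intro b hb
    exact ZMod.val_cast_of_lt (Finset.mem_range.1 hb)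
  · intro x _
    exact ZMod.natCast_zmod_val x
  · intro b _
    rfl

theorem B2_period (g : ℕ → ℤ) (P : ℕ) (hP : 0 < P) (hper : ∀ m, g (P + m) = g m)
    (hz : ∑ m ∈ Finset.range P, g m = 0) (K : ℕ) :
    |∑ m ∈ Finset.range K, g m| ≤ ∑ m ∈ Finset.range P, |g m| := by
  induction K using Nat.strong_induction_on with
  | _ K ih =>
    rcases le_or_gt K P with hK | hK
    · calc |∑ m ∈ Finset.range K, g m| ≤ ∑ m ∈ Finset.range K, |g m| := Finset.abs_sum_le_sum_abs _ _
        _ ≤ ∑ m ∈ Finset.range P, |g m| :=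
          Finset.sum_le_sum_of_subset_of_nonneg (Finset.range_mono hK) fun m _ _ => abs_nonneg _
    · obtain ⟨L, rfl⟩ := Nat.exists_eq_add_of_le hK.le
      rw [Finset.sum_range_add, hz, zero_add]
      simp only [hper]
      exact ih L (by omega)

theorem B2_diag (g : ℕ → ℤ) (P : ℕ) (hP : 0 < P) (hper : ∀ m, g (P + m) = g m)
    (h0 : ∀ m, 0 ≤ g m) (C : ℤ) (hC : 0 ≤ C) (hz : ∑ m ∈ Finset.range P, g m ≤ P * C) (K : ℕ) :
    ∑ m ∈ Finset.range K, g m ≤ (K + P) * C := by
  induction K using Nat.strong_induction_on with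
  | _ K ih =>
    rcases le_or_gt K P with hK | hK
    · have h1 : ∑ m ∈ Finset.range K, g m ≤ ∑ m ∈ Finset.range P, g m :=
        Finset.sum_le_sum_of_subset_of_nonneg (Finset.range_mono hK) fun m _ _ => h0 m
      have h2 : (0 : ℤ) ≤ (K : ℤ) * C := by positivity
      linarith
    · obtain ⟨L, rfl⟩ := Nat.exists_eq_add_of_le hK.le
      rw [Finset.sum_range_add]
      simp only [hper]
      have h3 := ih L (by omega)
      push_cast
      linarith

theorem B2_crt (q r : ℕ) [NeZero q] [NeZero r] (hcop : q.Coprime r) (F : ZMod q → ℤ)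
    (G : ZMod r → ℤ) :
    ∑ m ∈ Finset.range (q * r), F (m : ZMod q) * G (m : ZMod r) =
      (∑ x : ZMod q, F x) * ∑ y : ZMod r, G y := by
  haveI : NeZero (q * r) := ⟨Nat.mul_ne_zero (NeZero.ne q) (NeZero.ne r)⟩
  set e := ZMod.chineseRemainder hcop with he
  set H : ZMod (q * r) → ℤ := fun x => F (e x).1 * G (e x).2 with hH
  have h1 : ∑ m ∈ Finset.range (q * r), F (m : ZMod q) * G (m : ZMod r) =
      ∑ m ∈ Finset.range (q * r), H (m : ZMod (q * r)) := by
    refine Finset.sum_congr rfl fun m _ => ?_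
    simp only [hH, map_natCast, Prod.fst_natCast, Prod.snd_natCast]
  rw [h1, B2_sum_range]
  have h2 : ∑ x : ZMod (q * r), H x = ∑ p : ZMod q × ZMod r, F p.1 * G p.2 :=
    Equiv.sum_comp e.toEquiv (fun p : ZMod q × ZMod r => F p.1 * G p.2)
  rw [h2, Fintype.sum_prod_type, Finset.sum_mul_sum]

open Classical in
/-- the weight function -/
noncomputable def B2_f (q l k : ℕ) (x : ZMod q) : ℤ :=
  if x = 0 then 0 else if x ^ l = 1 then (k : ℤ) - 1 else -1

open Classical in
theorem B2_card (q l : ℕ) [Fact q.Prime] (hl : 1 ≤ l) (hd : l ∣ q - 1) :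
    (Finset.univ.filter fun x : ZMod q => x ^ l = 1).card = l := by
  have hq : q.Prime := Fact.out
  have hq1 : 0 < q - 1 := by have := hq.two_le; omega
  obtain ⟨g, hg⟩ := IsCyclic.exists_generator (α := (ZMod q)ˣ)
  have ho : orderOf g = q - 1 := by
    rw [orderOf_eq_card_of_forall_mem_zpowers hg, Nat.card_eq_fintype_card, ZMod.card_units]
  have hp : IsPrimitiveRoot g (q - 1) := by
    rw [← ho]; exact IsPrimitiveRoot.orderOf g
  obtain ⟨k, hk⟩ := hd
  have hp1 : IsPrimitiveRoot (g ^ k) l := hp.pow hq1 (by rw [hk, mul_comm])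
  have hp2 : IsPrimitiveRoot ((g ^ k : (ZMod q)ˣ) : ZMod q) l :=
    hp1.map_of_injective (f := Units.coeHom (ZMod q)) Units.val_injective
  have h1 := hp2.card_nthRootsFinset
  have h2 : (Finset.univ.filter fun x : ZMod q => x ^ l = 1) =
      Polynomial.nthRootsFinset l (1 : ZMod q) := by
    ext x
    rw [Polynomial.mem_nthRootsFinset (by omega)]
    simp
  rw [h2, h1]

theorem B2_sum (q l k : ℕ) [Fact q.Prime] (hl : 1 ≤ l) (hk : l * k = q - 1) (φ : ℤ → ℤ)
    (hφ : φ 0 = 0) :
    ∑ x : ZMod q, φ (B2_f q l k x) = l * φ ((k : ℤ) - 1) + (l * (k - 1)) * φ (-1) := by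
  classical
  have hq : q.Prime := Fact.out
  have h1 : ∀ x : ZMod q, φ (B2_f q l k x) = (if x ^ l = 1 then φ ((k : ℤ) - 1) - φ (-1) else 0)
      + φ (-1) - (if x = 0 then φ (-1) else 0) := by
    intro x
    unfold B2_f
    by_cases hx : x = 0
    · subst hx
      rw [if_pos rfl, if_pos rfl, zero_pow (by omega), if_neg (by simp), hφ]
      ring
    · rw [if_neg hx, if_neg hx]
      by_cases hx1 : x ^ l = 1
      · rw [if_pos hx1, if_pos hx1]; ring
      · rw [if_neg hx1, if_neg hx1]; ring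
  simp_rw [h1]
  rw [Finset.sum_sub_distrib, Finset.sum_add_distrib, ← Finset.sum_filter, Finset.sum_const,
    B2_card q l hl ⟨k, hk.symm⟩, Finset.sum_const, Finset.card_univ, ZMod.card,
    Finset.sum_ite_eq' Finset.univ (0 : ZMod q), if_pos (Finset.mem_univ _)]
  have h2 : (q : ℤ) = l * k + 1 := by
    have : q = l * k + 1 := by
      have := hq.two_le
      omega
    rw [this]; push_cast; ring
  simp only [nsmul_eq_mul]
  rw [h2]
  ring

theorem hB2 : DualSieve2 := by
  intro S W l N X K hS hW hJ hK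
  classical
  set k : ℕ → ℕ := fun q => (q - 1) / l q with hk
  set a : ℕ → ℕ → ℤ := fun q m => B2_f q (l q) (k q) (m : ZMod q) with ha
  have hlk : ∀ q ∈ S, l q * k q = q - 1 := fun q hq =>
    Nat.mul_div_cancel' (hS q hq).2.1
  have hk2 : ∀ q ∈ S, 2 ≤ k q := by
    intro q hq
    obtain ⟨-, -, h1, -, h2, -⟩ := hS q hq
    have h3 := hlk q hq
    by_contra hcon
    have : k q ≤ 1 := by omega
    have : l q * k q ≤ l q * 1 := Nat.mul_le_mul_left _ this
    omega
  have hKz : (K : ℤ) = ∑ q ∈ S, ((k q : ℤ) - 1) := by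
    rw [hK, Nat.cast_sum]
    refine Finset.sum_congr rfl fun q hq => ?_
    have := hk2 q hq
    rw [Nat.cast_sub (by simp only [hk] at this; omega)]
    simp [hk]
  have hper : ∀ q P m : ℕ, q ∣ P → a q (P + m) = a q m := by
    intro q P m hP
    have : ((P : ℕ) : ZMod q) = 0 := (ZMod.natCast_eq_zero_iff P q).2 hP
    simp only [ha]
    push_cast
    rw [this, zero_add]
  have key : ((K : ℤ) ^ 2 * W.card) ≤ 2 * (N + 1) * K + 4 * (X : ℤ) ^ 2 * (K : ℤ) ^ 2 := by
    have h1 : ((K : ℤ) ^ 2 * W.card) ≤ ∑ m ∈ Finset.range (N + 1), (∑ q ∈ S, a q m) ^ 2 := by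
      have h2 : W ⊆ Finset.range (N + 1) := fun w hw =>
        Finset.mem_range.2 (Nat.lt_succ_of_le (hW w hw))
      have h2' : ∀ w ∈ W, ∑ q ∈ S, a q w = K := by
        intro w hw
        rw [hKz]
        refine Finset.sum_congr rfl fun q hq => ?_
        have hq' := hS q hq
        haveI := Fact.mk hq'.1
        have h5 := hJ q hq w hw
        have h6 : (w : ZMod q) ≠ 0 := by
          intro h
          rw [h, zero_pow (by omega)] at h5
          exact zero_ne_one h5
        simp only [ha, B2_f]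
        rw [if_neg h6, if_pos h5]
      calc ((K : ℤ) ^ 2 * W.card) = ∑ w ∈ W, (∑ q ∈ S, a q w) ^ 2 := by
            rw [Finset.sum_congr rfl (fun w hw => by rw [h2' w hw])]
            simp
            ring
        _ ≤ _ := Finset.sum_le_sum_of_subset_of_nonneg h2 fun m _ _ => sq_nonneg _
    have h3 : ∑ m ∈ Finset.range (N + 1), (∑ q ∈ S, a q m) ^ 2 =
        ∑ q ∈ S, ∑ r ∈ S, ∑ m ∈ Finset.range (N + 1), a q m * a r m := by
      simp only [sq, Finset.sum_mul_sum]
      rw [Finset.sum_comm]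
      refine Finset.sum_congr rfl fun q _ => ?_
      rw [Finset.sum_comm]
    have h4 : ∀ q ∈ S, ∀ r ∈ S, ∑ m ∈ Finset.range (N + 1), a q m * a r m ≤
        (if q = r then 2 * ((N : ℤ) + 1) * ((k q : ℤ) - 1) else 0)
          + 4 * (X : ℤ) ^ 2 * (((k q : ℤ) - 1) * ((k r : ℤ) - 1)) := by
      intro q hq r hr
      obtain ⟨hqp, hqd, hql, hqX, hq2, hqN⟩ := hS q hq
      obtain ⟨hrp, hrd, hrl, hrX, hr2, hrN⟩ := hS r hr
      haveI := Fact.mk hqp
      haveI := Fact.mk hrp
      have kq1 : (0 : ℤ) ≤ (k q : ℤ) - 1 := by have := hk2 q hq; omega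
      have kr1 : (0 : ℤ) ≤ (k r : ℤ) - 1 := by have := hk2 r hr; omega
      have hqz : (q : ℤ) = l q * k q + 1 := by
        have h5 := hlk q hq
        have : q = l q * k q + 1 := by
          have := hqp.two_le
          omega
        exact_mod_cast this
      by_cases hqr : q = r
      · subst hqr
        rw [if_pos rfl]
        have h5 : ∑ m ∈ Finset.range (N + 1), a q m * a q m ≤
            ((N + 1 : ℕ) + q) * ((k q : ℤ) - 1) := by
          refine B2_diag (fun m => a q m * a q m) q hqp.pos ?_ ?_ _ kq1 ?_ (N + 1)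
          · intro m
            simp only [hper q q m dvd_rfl]
          · intro m
            exact mul_self_nonneg _
          · have h6 := B2_sum_range q (fun x => B2_f q (l q) (k q) x * B2_f q (l q) (k q) x)
            have h7 := B2_sum q (l q) (k q) hql (hlk q hq) (fun z => z * z) (by ring)
            simp only [ha]
            rw [h6, h7, hqz]
            nlinarith
        have h8 : ((N + 1 : ℕ) : ℤ) + q ≤ 2 * ((N : ℤ) + 1) := by
          have : (q : ℤ) ≤ N := by exact_mod_cast hqN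
          push_cast
          linarith
        have h9 : (((N + 1 : ℕ) : ℤ) + q) * ((k q : ℤ) - 1) ≤ 2 * ((N : ℤ) + 1) * ((k q : ℤ) - 1) :=
          mul_le_mul_of_nonneg_right h8 kq1
        have h10 : (0 : ℤ) ≤ 4 * (X : ℤ) ^ 2 * (((k q : ℤ) - 1) * ((k q : ℤ) - 1)) := by positivity
        linarith
      · rw [if_neg hqr, zero_add]
        have hcop : q.Coprime r := (Nat.coprime_primes hqp hrp).2 hqr
        have s1 := B2_sum q (l q) (k q) hql (hlk q hq) (fun z => z) rfl
        have s2 := B2_sum q (l q) (k q) hql (hlk q hq) (fun z => |z|) (abs_zero)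
        have s3 := B2_sum r (l r) (k r) hrl (hlk r hr) (fun z => |z|) (abs_zero)
        simp only [abs_neg, abs_one, mul_one, abs_of_nonneg kq1] at s2
        simp only [abs_neg, abs_one, mul_one, abs_of_nonneg kr1] at s3
        have h5 := B2_period (fun m => a q m * a r m) (q * r) (Nat.mul_pos hqp.pos hrp.pos)
          (fun m => by
            simp only [hper q (q * r) m (Nat.dvd_mul_right _ _),
              hper r (q * r) m (Nat.dvd_mul_left _ _)])
          (by
            simp only [ha]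
            rw [B2_crt q r hcop (B2_f q (l q) (k q)) (B2_f r (l r) (k r))]
            rw [s1]
            ring) (N + 1)
        have h6 : ∑ m ∈ Finset.range (q * r), |a q m * a r m| =
            (l q * ((k q : ℤ) - 1) + l q * ((k q : ℤ) - 1)) *
              (l r * ((k r : ℤ) - 1) + l r * ((k r : ℤ) - 1)) := by
          rw [← s2, ← s3, ← B2_crt q r hcop (fun x => |B2_f q (l q) (k q) x|)
            (fun x => |B2_f r (l r) (k r) x|)]
          refine Finset.sum_congr rfl fun m _ => ?_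
          rw [abs_mul]
        refine le_trans (le_abs_self _) (le_trans h5 ?_)
        rw [h6]
        have h7 : (l q : ℤ) * l r ≤ (X : ℤ) ^ 2 := by
          rw [sq]
          exact_mod_cast Nat.mul_le_mul hqX hrX
        have h8 : (0 : ℤ) ≤ ((k q : ℤ) - 1) * ((k r : ℤ) - 1) := mul_nonneg kq1 kr1
        nlinarith [mul_le_mul_of_nonneg_right h7 h8]
    have h8 : ∑ q ∈ S, ∑ r ∈ S, ∑ m ∈ Finset.range (N + 1), a q m * a r m ≤
        ∑ q ∈ S, ∑ r ∈ S, ((if q = r then 2 * ((N : ℤ) + 1) * ((k q : ℤ) - 1) else 0)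
          + 4 * (X : ℤ) ^ 2 * (((k q : ℤ) - 1) * ((k r : ℤ) - 1))) :=
      Finset.sum_le_sum fun q hq => Finset.sum_le_sum fun r hr => h4 q hq r hr
    have h9 : ∑ q ∈ S, ∑ r ∈ S, ((if q = r then 2 * ((N : ℤ) + 1) * ((k q : ℤ) - 1) else 0)
          + 4 * (X : ℤ) ^ 2 * (((k q : ℤ) - 1) * ((k r : ℤ) - 1))) =
        2 * (N + 1) * K + 4 * (X : ℤ) ^ 2 * (K : ℤ) ^ 2 := by
      have e : ∀ q ∈ S, ∑ r ∈ S, ((if q = r then 2 * ((N : ℤ) + 1) * ((k q : ℤ) - 1) else 0)
          + 4 * (X : ℤ) ^ 2 * (((k q : ℤ) - 1) * ((k r : ℤ) - 1))) =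
          2 * ((N : ℤ) + 1) * ((k q : ℤ) - 1) + 4 * (X : ℤ) ^ 2 * (((k q : ℤ) - 1) * K) := by
        intro q hq
        rw [Finset.sum_add_distrib, Finset.sum_ite_eq, if_pos hq, ← Finset.mul_sum,
          ← Finset.mul_sum, ← hKz]
      rw [Finset.sum_congr rfl e, Finset.sum_add_distrib, ← Finset.mul_sum, ← Finset.mul_sum,
        ← Finset.sum_mul, ← hKz]
      ring
    linarith
  have key2 : ((K : ℤ) ^ 2 * W.card) ≤ 2 * (N + 1) * K + 36 * (X : ℤ) ^ 2 * (K : ℤ) ^ 2 := by
    have : (0 : ℤ) ≤ (X : ℤ) ^ 2 * (K : ℤ) ^ 2 := by positivity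
    linarith
  exact_mod_cast key2

end Pool.Agent.H366R2.HN
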