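import Pool.Agent.H366R2.HN.Defs2

set_option autoImplicit false
open Filter

namespace Pool.Agent.H366R2.HN

theorem hC2 : BadPrime2 := by
  intro l M q hl hl2 hM hq h
  have : Fact q.Prime := ⟨hq⟩
  have : Fact l.Prime := ⟨hl⟩
  have hz : ∀ i : ℕ, 2 ≤ i → i ≤ M → ((i : ZMod q)) ^ l = 1 := by
    intro i h2 hM
    have h3 := h i (Finset.mem_Icc.2 ⟨h2, hM⟩)
    have h4 := (ZMod.natCast_eq_zero_iff (i ^ l - 1) q).2 h3
    rw [Nat.cast_sub (Nat.one_le_pow _ _ (by omega))] at h4
    push_cast at h4
    exact sub_eq_zero.1 h4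
  have hq2 : q ≠ 2 := by
    intro hq2
    have h5 := hz 2 le_rfl hM
    have h6 : ((2 : ℕ) : ZMod q) = 0 := (ZMod.natCast_eq_zero_iff 2 q).2 (by rw [hq2])
    rw [h6, zero_pow hl.ne_zero] at h5
    exact zero_ne_one h5
  have hq3 : 2 < q := lt_of_le_of_ne hq.two_le (Ne.symm hq2)
  have hodd : l % 2 = 1 := by
    rcases hl.eq_two_or_odd with h | h
    · omega
    · exact h
  have hsm : ∀ w : ℕ, 1 ≤ w → (∀ p : ℕ, p.Prime → p ∣ w → p ≤ M) → ((w : ZMod q)) ^ l = 1 := by
    intro w
    induction w using Nat.strong_induction_on with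
    | _ w ih =>
      intro hw1 hw
      rcases Nat.eq_or_lt_of_le hw1 with h1 | h1
      · rw [← h1]; simp
      · have hp : (w.minFac).Prime := Nat.minFac_prime (by omega)
        obtain ⟨v, hv⟩ := Nat.minFac_dvd w
        have hv1 : 1 ≤ v := by
          rcases Nat.eq_zero_or_pos v with h0 | h0
          · rw [h0] at hv; omega
          · exact h0
        have hvw : v < w := by
          rw [hv]
          have := hp.two_le
          conv_lhs => rw [← one_mul v]
          have h7 : 1 * v < w.minFac * v := Nat.mul_lt_mul_of_pos_right (by omega) (by omega)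
          rw [← hv] at h7 ⊢
          exact h7
        have ihv := ih v hvw hv1 (fun p hp1 hpv => hw p hp1 (by rw [hv]; exact Dvd.dvd.mul_left hpv _))
        have hpm : w.minFac ≤ M := hw _ hp (Nat.minFac_dvd w)
        have h8 := hz w.minFac hp.two_le hpm
        have h9 : ((w : ℕ) : ZMod q) = ((w.minFac : ℕ) : ZMod q) * ((v : ℕ) : ZMod q) := by
          rw [← Nat.cast_mul, ← hv]
        rw [h9, mul_pow, h8, ihv, one_mul]
  have hord : orderOf (2 : ZMod q) = l := by
    have h2 := hz 2 le_rfl hM
    push_cast at h2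
    refine orderOf_eq_prime h2 ?_
    intro h3
    have : (1 : ZMod q) = 0 := by
      have h4 : (2 : ZMod q) - 1 = 0 := by rw [h3]; ring
      have h5 : (2 : ZMod q) - 1 = 1 := by ring
      rw [← h5]; exact h4
    exact one_ne_zero this
  have hdvd : l ∣ q - 1 := by
    rw [← hord]
    refine orderOf_dvd_of_pow_eq_one ?_
    refine ZMod.pow_card_sub_one_eq_one ?_
    intro h0
    have h2 := hz 2 le_rfl hM
    push_cast at h2
    rw [h0, zero_pow hl.ne_zero] at h2
    exact zero_ne_one h2
  have h2l : 2 * l ≤ q - 1 := by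
    obtain ⟨k, hk⟩ := hdvd
    have hqodd : q % 2 = 1 := by
      rcases hq.eq_two_or_odd with h | h
      · omega
      · exact h
    have hk1 : k ≠ 0 := by rintro rfl; omega
    have hk2 : k ≠ 1 := by rintro rfl; omega
    have hk3 : 2 ≤ k := by omega
    calc 2 * l = l * 2 := by ring
      _ ≤ l * k := Nat.mul_le_mul_left _ hk3
      _ = q - 1 := hk.symm
  refine ⟨hsm, hord, hdvd, h2l, ?_⟩
  · intro T hT
    classical
    have hcard : (Polynomial.nthRoots l (1 : ZMod q)).toFinset.card ≤ l :=
      le_trans (Multiset.toFinset_card_le _) (Polynomial.card_nthRoots l 1)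
    refine le_trans ?_ hcard
    refine Finset.card_le_card_of_injOn (fun w => ((w : ℕ) : ZMod q)) ?_ ?_
    · intro w hw
      have hw' : w ∈ SM M T := hw
      simp only [SM, Finset.mem_filter, Finset.mem_Icc] at hw'
      have h1 := hsm w hw'.1.1 hw'.2
      simp only [Finset.mem_coe, Multiset.mem_toFinset]
      rw [Polynomial.mem_nthRoots hl.pos]
      exact h1
    · intro a ha b hb hab
      have ha' : a ∈ SM M T := ha
      have hb' : b ∈ SM M T := hb
      simp only [SM, Finset.mem_filter, Finset.mem_Icc] at ha' hb'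
      have h1 : a ≡ b [MOD q] := (ZMod.natCast_eq_natCast_iff a b q).1 hab
      exact Nat.ModEq.eq_of_lt_of_lt h1 (by omega) (by omega)

end Pool.Agent.H366R2.HN
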