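import Mathlib

set_option autoImplicit false
open Filter

namespace Pool.Agent.H366R2.HN

/-- The M-smooth numbers in [1, N]: all prime factors at most M. -/
noncomputable def SM (M N : ℕ) : Finset ℕ := by
  classical
  exact (Finset.Icc 1 N).filter (fun w => ∀ p : ℕ, p.Prime → p ∣ w → p ≤ M)

/-- A1 -/
def PrimeLower : Prop := ∀ ε : ℝ, 0 < ε → ∀ᶠ M : ℕ in atTop, (M : ℝ) ^ (1 - ε) ≤ (Nat.primeCounting M : ℝ)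

/-- A2 -/
def SmoothChoose : Prop := ∀ M N s : ℕ, M ^ s ≤ N → (Nat.primeCounting M).choose s ≤ (SM M N).card

/-- A3 -/
def SmoothCount : Prop := ∀ t ε : ℝ, 0 < t → 0 < ε →
  ∀ᶠ x : ℝ in atTop, x ^ (3 * t / 4 - ε) ≤ ((SM ⌊(Real.log x) ^ 4⌋₊ ⌊x ^ t⌋₊).card : ℝ)

/-- B -/
def DualSieve : Prop := ∀ (S W : Finset ℕ) (T N : ℕ), (∀ q ∈ S, q.Prime ∧ 2 < q ∧ q ≤ T) → (∀ w ∈ W, w ≤ N) →
  (∀ q ∈ S, ∀ w ∈ W, jacobiSym (w : ℤ) q = 1) →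
  S.card ^ 2 * W.card ≤ S.card * (N + 1) + S.card ^ 2 * T ^ 2

/-- C -/
def BadPrime : Prop := ∀ (l M q : ℕ), l.Prime → 2 < l → 2 ≤ M → q.Prime → (∀ i ∈ Finset.Icc 2 M, q ∣ i ^ l - 1) →
  2 < q ∧ (∀ w : ℕ, 1 ≤ w → (∀ p : ℕ, p.Prime → p ∣ w → p ≤ M) → jacobiSym (w : ℤ) q = 1) ∧
  orderOf (2 : ZMod q) = l ∧ (∀ T : ℕ, T < q → (SM M T).card ≤ l)

end Pool.Agent.H366R2.HN
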