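import Pool.Agent.H366R2.HN.Defs

set_option autoImplicit false
open Filter

namespace Pool.Agent.H366R2.HN

/-- A4: general exponent A > 1 -/
def SmoothCountA : Prop := ∀ A t ε : ℝ, 1 < A → 0 < t → 0 < ε →
  ∀ᶠ x : ℝ in atTop, x ^ (t * (1 - 1 / A) - ε) ≤ ((SM ⌊(Real.log x) ^ A⌋₊ ⌊x ^ t⌋₊).card : ℝ)

/-- B2 -/
def DualSieve2 : Prop := ∀ (S W : Finset ℕ) (l : ℕ → ℕ) (N X K : ℕ),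
  (∀ q ∈ S, q.Prime ∧ l q ∣ q - 1 ∧ 1 ≤ l q ∧ l q ≤ X ∧ 2 * l q ≤ q - 1 ∧ q ≤ N) →
  (∀ w ∈ W, w ≤ N) →
  (∀ q ∈ S, ∀ w ∈ W, (w : ZMod q) ^ (l q) = 1) →
  K = ∑ q ∈ S, ((q - 1) / l q - 1) →
  K ^ 2 * W.card ≤ 2 * (N + 1) * K + 36 * X ^ 2 * K ^ 2

/-- C2 -/
def BadPrime2 : Prop := ∀ (l M q : ℕ), l.Prime → 2 < l → 2 ≤ M → q.Prime → (∀ i ∈ Finset.Icc 2 M, q ∣ i ^ l - 1) →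
  (∀ w : ℕ, 1 ≤ w → (∀ p : ℕ, p.Prime → p ∣ w → p ≤ M) → (w : ZMod q) ^ l = 1) ∧
  orderOf (2 : ZMod q) = l ∧ l ∣ q - 1 ∧ 2 * l ≤ q - 1 ∧ (∀ T : ℕ, T < q → (SM M T).card ≤ l)

end Pool.Agent.H366R2.HN
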