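import Pool.Agent.H366R2.HN.Defs2

set_option autoImplicit false
open Filter

namespace Pool.Agent.H366R2.HN

theorem key2 (hS : SmoothCountA) (hB : DualSieve2) (hC : BadPrime2) (A e : ℝ) (hA : 3 < A) (he : 0 < e) :
    ∀ᶠ y : ℝ in atTop, ∀ L : Finset ℕ,
      (∀ l ∈ L, l.Prime ∧ y < (l : ℝ) ∧ (l : ℝ) ≤ y ^ ((A - 1) / 2) ∧
        ∃ q : ℕ, q.Prime ∧ ∀ i ∈ Finset.Icc 2 ⌊(Real.log y) ^ A⌋₊, q ∣ i ^ l - 1) →
      (L.card : ℝ) ≤ 8 * y ^ (1 + 2 * e) := by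
  have hA1 : 0 < A - 1 := by linarith
  have hA0 : 0 < A := by linarith
  set t : ℝ := A * (A - 1 + 2 * e) / (A - 1) with ht
  have ht0 : 0 < t := by rw [ht]; positivity
  have htb : t * (1 - 1 / A) - e = A - 1 + e := by
    rw [ht]; field_simp; ring
  have hte : t - (A - 1 + e) ≤ 1 + 2 * e := by
    rw [ht, sub_le_iff_le_add, div_le_iff₀ hA1]
    nlinarith
  have e1 := hS A t e (by linarith) ht0 he
  have e3 : ∀ᶠ y : ℝ in atTop, (72 : ℝ) ≤ y ^ e :=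
    (tendsto_rpow_atTop he).eventually_ge_atTop 72
  have e4 : ∀ᶠ y : ℝ in atTop, (3 : ℝ) ≤ (Real.log y) ^ A :=
    ((tendsto_rpow_atTop hA0).comp Real.tendsto_log_atTop).eventually_ge_atTop 3
  filter_upwards [e1, e3, e4, eventually_gt_atTop (2 : ℝ)] with y h2 h3 h4 h5 L hL
  rw [htb] at h2
  set M := ⌊(Real.log y) ^ A⌋₊ with hMdef
  have hM : 2 ≤ M := Nat.le_floor (by push_cast; linarith)
  have hy0 : (0 : ℝ) < y := by linarith
  have hy1 : (1 : ℝ) < y := by linarith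
  choose! hp hgt hle q hq hdiv using hL
  have hbad : ∀ l ∈ L, (∀ w : ℕ, 1 ≤ w → (∀ p : ℕ, p.Prime → p ∣ w → p ≤ M) → (w : ZMod (q l)) ^ l = 1) ∧
      orderOf (2 : ZMod (q l)) = l ∧ l ∣ q l - 1 ∧ 2 * l ≤ q l - 1 ∧ (∀ T : ℕ, T < q l → (SM M T).card ≤ l) := by
    intro l hl
    refine hC l M (q l) (hp l hl) ?_ hM (hq l hl) (hdiv l hl)
    have := hgt l hl
    have h6 : (2 : ℝ) < (l : ℝ) := by linarith
    exact_mod_cast h6
  set X := ⌊y ^ ((A - 1) / 2)⌋₊ with hX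
  set N := ⌊y ^ t⌋₊ with hN
  set S := L.image q with hSdef
  have hinj : Set.InjOn q (L : Set ℕ) := by
    intro a ha b hb hab
    have h7 := (hbad a ha).2.1
    have h8 := (hbad b hb).2.1
    rw [hab] at h7
    rw [← h7, h8]
  have hcard : S.card = L.card := Finset.card_image_of_injOn hinj
  set lf : ℕ → ℕ := fun r => orderOf (2 : ZMod r) with hlf
  have hST : ∀ r ∈ S, r.Prime ∧ lf r ∣ r - 1 ∧ 1 ≤ lf r ∧ lf r ≤ X ∧ 2 * lf r ≤ r - 1 ∧ r ≤ N := by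
    intro r hr
    obtain ⟨l, hl, rfl⟩ := Finset.mem_image.1 hr
    have ho : lf (q l) = l := (hbad l hl).2.1
    rw [ho]
    refine ⟨hq l hl, (hbad l hl).2.2.1, (hp l hl).one_le, Nat.le_floor (hle l hl), (hbad l hl).2.2.2.1, ?_⟩
    by_contra hcon
    push Not at hcon
    have h9 := (hbad l hl).2.2.2.2 N hcon
    have h10 : ((SM M N).card : ℝ) ≤ (l : ℝ) := by exact_mod_cast h9
    have h11 : y ^ (A - 1 + e) ≤ y ^ ((A - 1) / 2) :=
      le_trans h2 (le_trans h10 (hle l hl))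
    have h12 : y ^ ((A - 1) / 2) < y ^ (A - 1 + e) :=
      Real.rpow_lt_rpow_of_exponent_lt hy1 (by linarith)
    linarith
  have hW : ∀ w ∈ SM M N, w ≤ N := by
    intro w hw
    simp only [SM, Finset.mem_filter, Finset.mem_Icc] at hw
    exact hw.1.2
  have hJ : ∀ r ∈ S, ∀ w ∈ SM M N, (w : ZMod r) ^ (lf r) = 1 := by
    intro r hr w hw
    obtain ⟨l, hl, rfl⟩ := Finset.mem_image.1 hr
    have ho : lf (q l) = l := (hbad l hl).2.1
    rw [ho]
    simp only [SM, Finset.mem_filter, Finset.mem_Icc] at hw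
    exact (hbad l hl).1 w hw.1.1 hw.2
  set K := ∑ r ∈ S, ((r - 1) / lf r - 1) with hK
  have hKS : S.card ≤ K := by
    rw [hK, Finset.card_eq_sum_ones]
    refine Finset.sum_le_sum ?_
    intro r hr
    obtain ⟨-, -, h1, -, h6, -⟩ := hST r hr
    have : 2 ≤ (r - 1) / lf r := (Nat.le_div_iff_mul_le h1).2 h6
    omega
  have main := hB S (SM M N) lf N X K hST hW hJ hK
  have mainR : (K : ℝ) ^ 2 * ((SM M N).card : ℝ) ≤ 2 * ((N : ℝ) + 1) * (K : ℝ) + 36 * (X : ℝ) ^ 2 * (K : ℝ) ^ 2 := by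
    exact_mod_cast main
  set s : ℝ := (K : ℝ) with hs
  set w : ℝ := ((SM M N).card : ℝ) with hw
  have hs0 : 0 ≤ s := Nat.cast_nonneg _
  have hXle : (X : ℝ) ≤ y ^ ((A - 1) / 2) := Nat.floor_le (by positivity)
  have hNle : (N : ℝ) ≤ y ^ t := Nat.floor_le (by positivity)
  have hX2 : (X : ℝ) ^ 2 ≤ y ^ (A - 1) := by
    calc (X : ℝ) ^ 2 ≤ (y ^ ((A - 1) / 2)) ^ 2 := by gcongr
      _ = y ^ (A - 1) := by
        rw [← Real.rpow_natCast, ← Real.rpow_mul hy0.le]; norm_num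
  have hsplit : y ^ (A - 1 + e) = y ^ (A - 1) * y ^ e := by
    rw [← Real.rpow_add hy0]
  have hX3 : 36 * (X : ℝ) ^ 2 ≤ w / 2 := by
    have hpos : 0 < y ^ (A - 1) := by positivity
    have : y ^ (A - 1) * 72 ≤ y ^ (A - 1 + e) := by
      rw [hsplit]; gcongr
    linarith
  have hNle2 : (N : ℝ) + 1 ≤ 2 * y ^ t := by
    have : (1 : ℝ) ≤ y ^ t := Real.one_le_rpow hy1.le ht0.le
    linarith
  have hmain2 : s ^ 2 * w / 2 ≤ 4 * y ^ t * s := by
    have h13 : 36 * (X : ℝ) ^ 2 * s ^ 2 ≤ (w / 2) * s ^ 2 := by gcongr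
    have h14 : 2 * ((N : ℝ) + 1) * s ≤ 2 * (2 * y ^ t) * s := by gcongr
    nlinarith
  have hwpos : 0 < y ^ (A - 1 + e) := by positivity
  have hfin : s ≤ 8 * y ^ (1 + 2 * e) := by
    rcases hs0.eq_or_lt with h0 | h0
    · rw [← h0]; positivity
    · have h15 : s * w ≤ 8 * y ^ t := by
        have h16 : s * (s * w) ≤ s * (8 * y ^ t) := by nlinarith
        exact le_of_mul_le_mul_left h16 h0
      have h17 : s * y ^ (A - 1 + e) ≤ (8 * y ^ (1 + 2 * e)) * y ^ (A - 1 + e) := by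
        have h18 : y ^ t ≤ y ^ (1 + 2 * e) * y ^ (A - 1 + e) := by
          rw [← Real.rpow_add hy0]
          exact Real.rpow_le_rpow_of_exponent_le hy1.le (by linarith)
        have h19 : s * y ^ (A - 1 + e) ≤ s * w := by gcongr
        calc s * y ^ (A - 1 + e) ≤ s * w := h19
          _ ≤ 8 * y ^ t := h15
          _ ≤ 8 * (y ^ (1 + 2 * e) * y ^ (A - 1 + e)) := by gcongr
          _ = _ := by ring
      exact le_of_mul_le_mul_right h17 hwpos
  have h20 : (L.card : ℝ) ≤ s := by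
    rw [hs, ← hcard]; exact_mod_cast hKS
  exact h20.trans hfin

end Pool.Agent.H366R2.HN
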